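import Pool.Agent.helper72.ODK.Spec2
import Pool.Agent.helper55.NK.Base

/-! # Project ODK: the other listed lower bound is at most `VV` for odd `k > n/2` -/

set_option autoImplicit false

namespace Pool.Agent.helper72.UP

open Finset

theorem PRD_mv (mve : MVE_stmt) (mvo : MVO_stmt) (n K : ℕ) (hK : 1 ≤ K) (h1 : n < 4 * K + 2) (h2 : 2 * K + 1 ≤ n) :
    (n - 1).choose (2 * K) ≤ VV n (2 * K + 1) := by
  rcases Nat.even_or_odd' n with ⟨N, hN | hN⟩
  · subst hN
    exact mve N K (by omega) (by omega) (by omega)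
  · subst hN
    have h3 := mvo N K
    rcases Nat.lt_or_ge N 2 with h4 | h4
    · have hN1 : N = 1 := by omega
      have hK1 : K = 1 := by omega
      subst hN1
      subst hK1
      decide
    · have e : 2 * N + 1 - 1 = 2 * N := by omega
      rw [e]
      exact h3 h4 (by omega) (by omega)

theorem PRD (mve : MVE_stmt) (mvo : MVO_stmt) (n K a b i j : ℕ) (hn : a + b = n) (hk : i + j = 2 * K + 1)
    (hi : 1 ≤ i) (hj : 1 ≤ j) (h1 : n < 4 * K + 2) (h2 : 2 * K + 1 ≤ n) :
    a.choose i * b.choose j ≤ VV n (2 * K + 1) := by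
  have hK : 1 ≤ K := by omega
  refine le_trans ?_ (PRD_mv mve mvo n K hK h1 h2)
  have h3 := Pool.Agent.NK.Base.prod_le a b i j hi hj (by omega)
  rw [hn, hk] at h3
  refine h3.trans ?_
  have e2 : 2 * K + 1 - 1 = 2 * K := by omega
  rw [e2]
  rcases Nat.lt_or_ge n (4 * K + 1) with h4 | h4
  · have e1 : (n + 1) / (2 * K + 1) = 1 := by
      refine Nat.div_eq_of_lt_le (by omega) (by omega)
    rw [e1, one_mul]
  · have e0 : n = 4 * K + 1 := by omega
    subst e0
    have e1 : (4 * K + 1 + 1) / (2 * K + 1) = 2 := by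
      refine Nat.div_eq_of_lt_le (by omega) (by omega)
    rw [e1]
    have e3 : 4 * K + 1 - 2 = 4 * K - 1 := by omega
    have e4 : 4 * K + 1 - 1 = 4 * K := by omega
    rw [e3, e4]
    obtain ⟨m, rfl⟩ : ∃ m, K = m + 1 := ⟨K - 1, by omega⟩
    have e5 : 4 * (m + 1) = (4 * (m + 1) - 1) + 1 := by omega
    have e6 : 2 * (m + 1) = (2 * m + 1) + 1 := by ring
    have e7 : (4 * (m + 1)).choose (2 * (m + 1)) =
        (4 * (m + 1) - 1).choose (2 * m + 1) + (4 * (m + 1) - 1).choose (2 * (m + 1)) := by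
      conv_lhs => rw [e5, e6]
      rw [Nat.choose_succ_succ', ← e6]
    have e8 : (4 * (m + 1) - 1).choose (2 * m + 1) = (4 * (m + 1) - 1).choose (2 * (m + 1)) := by
      refine Nat.choose_symm_of_eq_add ?_
      omega
    rw [e7, e8]
    omega

end Pool.Agent.helper72.UP
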