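import Pool.Agent.helper72.ODK.Spec

/-!
# Project ODK, row ZIN (adapted from Pool/Agent/helper15/UP/LOW.lean)
-/

set_option autoImplicit false

namespace Pool.Agent.helper72.UP

open Finset

/-- the indicator vector of a set -/
noncomputable def ZIN_ind {n : ℕ} (s : Finset (Fin n)) : Fin n → ℝ := fun i => if i ∈ s then 1 else 0

lemma ZIN_inj {n : ℕ} : Function.Injective (ZIN_ind (n := n)) := by
  intro s t h
  ext i
  have h1 := congrFun h i
  unfold ZIN_ind at h1
  by_cases hs : i ∈ s <;> by_cases ht : i ∈ t <;> simp [hs, ht] at h1 ⊢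

theorem ZIN : ZIN_stmt := by
  classical
  intro n k x hx
  set Z : Finset (Finset (Fin n)) := univ.filter (fun s : Finset (Fin n) => s.Nonempty ∧ #s ≤ k ∧ ∑ i ∈ s, x i = 0) with hZ
  have h3 : Z.card = zer x k := by
    rw [hZ]
    unfold zer
    rfl
  refine ⟨Z.image ZIN_ind, ?_, ?_, ?_⟩
  · intro v hv
    rw [mem_image] at hv
    obtain ⟨s, hs, rfl⟩ := hv
    rw [hZ, mem_filter] at hs
    obtain ⟨-, hs1, hs2, hs3⟩ := hs
    refine ⟨?_, ?_, ?_⟩
    · intro i
      unfold ZIN_ind
      by_cases hi : i ∈ s
      · right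
        simp [hi]
      · left
        simp [hi]
    · obtain ⟨i, hi⟩ := hs1
      intro h0
      have h4 := congrFun h0 i
      unfold ZIN_ind at h4
      simp [hi] at h4
    · have h4 : univ.filter (fun i => ZIN_ind s i = 1) = s := by
        ext i
        unfold ZIN_ind
        simp
      rw [h4]
      exact hs2
  · intro i hi
    let φ : (Fin n → ℝ) →ₗ[ℝ] ℝ :=
      { toFun := fun v => ∑ j, v j * x j
        map_add' := by
          intro v w
          simp only [Pi.add_apply, add_mul, Finset.sum_add_distrib]
        map_smul' := by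
          intro c v
          simp only [Pi.smul_apply, smul_eq_mul, mul_assoc, Finset.mul_sum, RingHom.id_apply] }
    have h4 : Submodule.span ℝ ((Z.image ZIN_ind : Finset (Fin n → ℝ)) : Set (Fin n → ℝ)) ≤ LinearMap.ker φ := by
      rw [Submodule.span_le]
      intro v hv
      rw [mem_coe, mem_image] at hv
      obtain ⟨s, hs, rfl⟩ := hv
      rw [hZ, mem_filter] at hs
      show φ (ZIN_ind s) = 0
      show ∑ j, ZIN_ind s j * x j = 0
      unfold ZIN_ind
      simp only [ite_mul, one_mul, zero_mul]
      rw [Finset.sum_ite_mem, Finset.univ_inter]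
      exact hs.2.2.2
    have h5 : φ (Pi.single i 1) = 0 := h4 hi
    have h6 : φ (Pi.single i 1) = x i := by
      show ∑ j, (Pi.single i 1 : Fin n → ℝ) j * x j = x i
      rw [Finset.sum_eq_single i]
      · simp
      · intro j _ hj
        simp [hj]
      · intro h7
        exact absurd (mem_univ i) h7
    rw [h6] at h5
    exact hx i h5
  · rw [Finset.card_image_of_injective _ ZIN_inj, h3]

end Pool.Agent.helper72.UP
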