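import Pool.Agent.helper72.ODK.Main
import Pool.Agent.helper72.ODK.ZIN
import Pool.Agent.helper72.ODK.PRD
import Pool.Agent.helper83.ODK.CTW
import Pool.Agent.helper98.ODK.ASW
import Pool.Agent.helper2.ODK.FIW2
import Pool.Agent.helper54.ODK.TOW
import Pool.Agent.helper58.ODK.TAW
import Pool.Agent.helper16.ODK.HAW
import Pool.Agent.helper35.ODK.BIW
import Pool.Agent.helper71.ODK.DIW
import Pool.Agent.helper94.ODK.CEW
import Pool.Agent.helper63.ODK.SUW

/-! # Project ODK: all rows together -/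

set_option autoImplicit false

namespace Pool.Agent.helper72.UP

open Finset

theorem ODA_low (n K : ℕ) (hn : 1 ≤ n) : ∃ m ∈ sizes n (2 * K + 1), WW n K ≤ m := ODM_low ZIN CTW n K hn

theorem ODA_asw : ASW_stmt := ASW (FIW DIW TOW TAW BIW HAW CEW SUW)

theorem ODA_win : ∃ n0 : ℕ, ∀ n ≥ n0, ∀ K : ℕ, (n : ℝ) / 2 ≤ 2 * (K : ℝ) + 1 →
    2 * (K : ℝ) + 1 ≤ n / 2 + Real.sqrt (n * Real.log n) / 8 → VV n (2 * K + 1) < WW n K := ODM_win ODA_asw

end Pool.Agent.helper72.UP
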