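import Pool.Agent.helper72.ODK.Main2
import Pool.Agent.helper3.ODK.MVO
import Pool.Agent.helper54.ODK.MVE

/-! # Project ODK: final form -/

set_option autoImplicit false

namespace Pool.Agent.helper72.UP

open Finset

theorem ODA_both : ∃ n0 : ℕ, ∀ n ≥ n0, ∀ K : ℕ, (n : ℝ) / 2 < 2 * (K : ℝ) + 1 →
    2 * (K : ℝ) + 1 ≤ n / 2 + Real.sqrt (n * Real.log n) / 8 → VV n (2 * K + 1) < WW n K ∧
      ∀ n₁ n₂ k₁ k₂ : ℕ, n₁ + n₂ = n → k₁ + k₂ = 2 * K + 1 → 1 ≤ k₁ → 1 ≤ k₂ →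
        n₁.choose k₁ * n₂.choose k₂ < WW n K := ODM_both MVE MVO

end Pool.Agent.helper72.UP
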