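import Pool.Agent.helper72.ODK.Spec

/-! # Project ODK: the theorem from the rows -/

set_option autoImplicit false

namespace Pool.Agent.helper72.UP

open Finset

theorem ODM_low (zin : ZIN_stmt) (ctw : CTW_stmt) (n K : ℕ) (hn : 1 ≤ n) :
    ∃ m ∈ sizes n (2 * K + 1), WW n K ≤ m := by
  obtain ⟨x, hx, h⟩ := ctw n K hn
  exact ⟨_, zin n (2 * K + 1) x hx, h⟩

theorem ODM_win (asw : ASW_stmt) : ∃ n0 : ℕ, ∀ n ≥ n0, ∀ K : ℕ, (n : ℝ) / 2 ≤ 2 * (K : ℝ) + 1 →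
    2 * (K : ℝ) + 1 ≤ n / 2 + Real.sqrt (n * Real.log n) / 8 → VV n (2 * K + 1) < WW n K := by
  obtain ⟨n0, h⟩ := asw
  refine ⟨n0, fun n hn K h1 h2 => h n hn K ?_ ?_⟩
  · have h3 : (n : ℝ) ≤ ((4 * K + 2 : ℕ) : ℝ) := by
      push_cast
      linarith
    exact_mod_cast h3
  · push_cast
    exact h2

end Pool.Agent.helper72.UP
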