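import Pool.Agent.helper72.ODK.All

/-! # Project ODK: comparison with both listed lower bounds -/

set_option autoImplicit false

namespace Pool.Agent.helper72.UP

open Finset

theorem ODM_both (mve : MVE_stmt) (mvo : MVO_stmt) : ∃ n0 : ℕ, ∀ n ≥ n0, ∀ K : ℕ, (n : ℝ) / 2 < 2 * (K : ℝ) + 1 →
    2 * (K : ℝ) + 1 ≤ n / 2 + Real.sqrt (n * Real.log n) / 8 → VV n (2 * K + 1) < WW n K ∧
      ∀ n₁ n₂ k₁ k₂ : ℕ, n₁ + n₂ = n → k₁ + k₂ = 2 * K + 1 → 1 ≤ k₁ → 1 ≤ k₂ →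
        n₁.choose k₁ * n₂.choose k₂ < WW n K := by
  obtain ⟨n0, h⟩ := ODA_win
  refine ⟨n0, fun n hn K h1 h2 => ?_⟩
  have h3 := h n hn K h1.le h2
  refine ⟨h3, fun n₁ n₂ k₁ k₂ e1 e2 p1 p2 => lt_of_le_of_lt ?_ h3⟩
  have h4 : n < 4 * K + 2 := by
    have : (n : ℝ) < ((4 * K + 2 : ℕ) : ℝ) := by
      push_cast
      linarith
    exact_mod_cast this
  have hn0 : (0 : ℝ) ≤ n := Nat.cast_nonneg n
  have h5 : Real.sqrt (n * Real.log n) ≤ n := by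
    rw [Real.sqrt_le_left hn0, pow_two]
    exact mul_le_mul_of_nonneg_left (Real.log_le_self hn0) hn0
  have h6 : 2 * K + 1 ≤ n := by
    have : ((2 * K + 1 : ℕ) : ℝ) ≤ (n : ℝ) := by
      push_cast
      linarith
    exact_mod_cast this
  exact PRD mve mvo n K n₁ n₂ k₁ k₂ e1 e2 p1 p2 h4 h6

end Pool.Agent.helper72.UP
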