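import Pool.Agent.helper72.UP.Spec

/-!
# Project ODK (MP_7e34bc_co, Q2): odd `k` just above `n/2`

THEOREM. With `a = (n-1)/2`, `b = n/2`: `N(n, 2K+1) ≥ W(n,K) = sum_{1 ≤ i ≤ K} C(a,i) C(b,i) + sum_{i < K} C(a,i) C(b,i+2)` (weights `2, 1^a, (-1)^b`), and `W(n,K) > V(n,2K+1)` for all large `n` and all `K` with
`n/2 ≤ 2K+1 ≤ n/2 + sqrt(n log n)/8`. So the range `k ≥ n/2 + 6 sqrt(n log n)` of LargeWeight has the right order for odd `k`.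

RULES. Row `odk:XXX`: file `Pool/Agent/<seat>/ODK/XXX.lean`, `import Pool.Agent.helper72.ODK.Spec`, `set_option autoImplicit false`, `namespace Pool.Agent.helper72.UP`, `open Finset`, theorem line
as in the note (the other rows are hypotheses, so all rows are independent); auxiliary lemmas with prefix `XXX_`. Mathlib only.
A FALSE or awkward statement: one line to helper72 at once.
-/

set_option autoImplicit false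

namespace Pool.Agent.helper72.UP

open Finset

/-- the number of zero subsums with at most `2K+1` terms of the weights `2, 1^a, (-1)^b` -/
def WW (n K : ℕ) : ℕ := ∑ i ∈ Icc 1 K, ((n - 1) / 2).choose i * (n / 2).choose i + ∑ i ∈ range K, ((n - 1) / 2).choose i * (n / 2).choose (i + 2)

/-- **ZIN** (short; copy of the second half of Pool/Agent/helper15/UP/LOW.lean with a general `x`). The indicator vectors of the sets counted by `zer x k` are a unit-free set. -/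
def ZIN_stmt : Prop := ∀ (n k : ℕ) (x : Fin n → ℝ), (∀ i, x i ≠ 0) → zer x k ∈ sizes n k

/-- **CTW** (medium, CRITICAL). `x i = 2` for `i = 0`, `1` for `1 ≤ i ≤ a`, `-1` for `i > a` (`a = (n-1)/2`, `b = n/2`, `a + b + 1 = n`). `A = {i | x i = 1}`, `B = {i | x i = -1}`. The sets `s = S ∪ T`, `S ⊆ A`, `T ⊆ B`, `#S = #T = i`, `1 ≤ i ≤ K` and the sets
`s = {0} ∪ S ∪ T`, `#S = i < K`, `#T = i + 2` (size `2 i + 3 ≤ 2 K + 1`) have sum zero, are nonempty and are different (`s ↦ (0 ∈ s, s ∩ A, s ∩ B)` is injective). Only `≤` is claimed. -/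
def CTW_stmt : Prop := ∀ n K : ℕ, 1 ≤ n → ∃ x : Fin n → ℝ, (∀ i, x i ≠ 0) ∧ WW n K ≤ zer x (2 * K + 1)

/-- **DIW** (short). `(2K+1)/2 = K`, `(n+1)/2 = a + 1`, `C(a+1,i) = C(a,i) + C(a,i-1)` for `i ≥ 1`; so `VV n (2K+1) = ∑_{1 ≤ i ≤ K} C(a,i) C(b,i) + ∑_{i < K} C(a,i) C(b,i+1)`. -/
def DIW_stmt : Prop := ∀ n K : ℕ, 1 ≤ n → (WW n K : ℤ) = VV n (2 * K + 1) + ∑ i ∈ range K, (((n - 1) / 2).choose i : ℤ) * ((n / 2).choose (i + 2) - (n / 2).choose (i + 1))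

/-- **TOW** (short-medium). Vandermonde (`Nat.add_choose_eq`, `C(b,i+1) = C(b,b-1-i)`): `∑_i C(a,i) C(b,i+1) = C(a+b,b-1)`, `∑_i C(a,i) C(b,i+2) = C(a+b,b-2)` (terms with `i + 1 > b` are 0), and `C(a+b,b-2) (a+2) = C(a+b,b-1) (b-1)`; `a + 3 - b ≤ 3`. -/
def TOW_stmt : Prop := ∀ a b : ℕ, a ≤ b → 2 ≤ b →
  ((a : ℝ) + 2) * ∑ i ∈ range b, (a.choose i : ℝ) * ((b.choose (i + 1) : ℝ) - b.choose (i + 2)) ≤ 3 * (a + b).choose (b - 1)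

/-- **TAW** (short). Every term with `2 i + 3 ≥ b` is nonnegative (`Nat.choose_le_choose` / unimodality: `C(b,i+2) (i+2) = C(b,i+1) (b-i-1)`), for `K ≤ i ≤ L` one has `C(a,i) ≥ C(a,L)` (`a ≤ 2 K`), and the sum of `C(b,i+1) - C(b,i+2)` telescopes. -/
def TAW_stmt : Prop := ∀ a b K L : ℕ, a ≤ 2 * K → b ≤ 2 * K + 1 → K ≤ L → L < b →
  (a.choose L : ℝ) * ((b.choose (K + 1) : ℝ) - b.choose (L + 2)) ≤ ∑ i ∈ Ico K b, (a.choose i : ℝ) * ((b.choose (i + 1) : ℝ) - b.choose (i + 2))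

/-- **BIW** (short-medium). `m = b/2`, induction on `y`: `C(b,m+y+1) (m+y+1) = C(b,m+y) (b-m-y)`, and `(b-m-y)/(m+y+1) ≥ 1 - (2y+1)/(m+y+1) ≥ exp(-2 (2y+1)/(m+1))` as `1 - t ≥ exp(-2t)` for `0 ≤ t ≤ 1/2` (`2 (2y+1) ≤ m+1`); `∑_{t<y} (2t+1) = y^2`. -/
def BIW_stmt : Prop := ∀ b y : ℕ, 4 * y ≤ b / 2 + 1 →
  (b.choose (b / 2) : ℝ) * Real.exp (-(2 * (y : ℝ) ^ 2 / ((b / 2 : ℕ) + 1))) ≤ b.choose (b / 2 + y)

/-- **HAW** (short-medium). `z = Nat.sqrt b + 1`, `b ≤ 2 j + 1`. `C(b,j+t+1) (j+t+1) = C(b,j+t) (b-j-t)`, the ratio is `≤ (b-j-t)/(j+t+1) ≤ 1 - 2t/(j+t+1) ≤ exp(-2t/(j+t+1)) ≤ exp(-2t/(j+2z))` for `t < 2z`; the product over `t < 2 z` is `≤ exp(-2z(2z-1)/(j+2z))`.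
With `j ≤ b` and `z^2 ≥ b`, `z ≥ 4` (`b ≥ 9`): `2z(2z-1) ≥ 4 z^2 - 2 z ≥ z^2 + 2 z ≥ b + 2 z ≥ j + 2z` so it is `≤ exp(-1) ≤ 1/2`. (`j > b`: both sides are 0.) -/
def HAW_stmt : Prop := ∀ b j : ℕ, 9 ≤ b → b ≤ 2 * j + 1 → (b.choose (j + 2 * (Nat.sqrt b + 1)) : ℝ) ≤ b.choose j / 2

/-- **CEW** (short-medium). Even `a = 2m`: `4^m ≤ 2 sqrt(m) C(2m,m)` for `m ≥ 1` by induction (`C(2m+2,m+1) (m+1) = 2 (2m+1) C(2m,m)`, `(2m+1)^2 ≥ 4m(m+1)`; `Nat.succ_mul_centralBinom_succ`); odd `a = 2m+1`: `C(2m+1,m) = C(2m+2,m+1)/2`. -/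
def CEW_stmt : Prop := ∀ a : ℕ, 1 ≤ a → (2 : ℝ) ^ a ≤ 2 * Real.sqrt a * a.choose (a / 2)

/-- **SUW** (short). `∑_i C(a,i) C(b,b-1-i) = C(a+b,b-1)` (`Nat.add_choose_eq`), every `C(b,·) ≤ C(b,b/2)` (`Nat.choose_le_centralBinom`-type: `Nat.choose_le_middle`), `∑ C(a,i) = 2^a` (`Nat.sum_range_choose`). -/
def SUW_stmt : Prop := ∀ a b : ℕ, 1 ≤ b → (a + b).choose (b - 1) ≤ 2 ^ a * b.choose (b / 2)

/-- **FIW** (short-medium, from DIW, TOW, TAW, BIW, HAW, CEW, SUW). `a = (n-1)/2`, `b = n/2`, `z = Nat.sqrt b + 1`, `L = K - 1 + 2 z`, `j = K + 1`, `m = b/2`, `m' = a/2`, `y = K + 1 - m`, `y' = L - m'`. HYPOTHESES give `4y ≤ m+1`, `4y' ≤ m'+1`, so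
`C(b,K+1) ≥ C(b,m) e^(-2y²/(m+1))`, `C(a,L) ≥ C(a,m') e^(-2y'^2/(m'+1))`, `C(b,L+2) = C(b,K+1+2z) ≤ C(b,K+1)/2`. TAW: the tail is at least `C(a,L) C(b,K+1)/2 ≥ C(a,m') C(b,m) E/2` with `E = exp(-2y²/(m+1) - 2y'^2/(m'+1))`. By TOW, SUW, CEW the total is at most
`3 · 2^a C(b,m)/(a+2) ≤ 6 sqrt(a) C(a,m') C(b,m)/(a+2)`. As `12 sqrt(a) < (a+2) E` the tail is larger than the total, and `W - V = tail - total` (DIW; `range K ∪ Ico K b = range b`, `K ≤ b`). -/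
def FIW_stmt : Prop := ∀ n K : ℕ, 20 ≤ n → n ≤ 4 * K + 2 → K ≤ n / 2 →
  4 * (K + 1 - n / 2 / 2) ≤ n / 2 / 2 + 1 →
  4 * (K - 1 + 2 * (Nat.sqrt (n / 2) + 1) - (n - 1) / 2 / 2) ≤ (n - 1) / 2 / 2 + 1 →
  12 * Real.sqrt ((n - 1) / 2 : ℕ) < (((n - 1) / 2 : ℕ) + 2) *
    Real.exp (-(2 * ((K + 1 - n / 2 / 2 : ℕ) : ℝ) ^ 2 / ((n / 2 / 2 : ℕ) + 1)) - 2 * ((K - 1 + 2 * (Nat.sqrt (n / 2) + 1) - (n - 1) / 2 / 2 : ℕ) : ℝ) ^ 2 / (((n - 1) / 2 / 2 : ℕ) + 1)) →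
  VV n (2 * K + 1) < WW n K

/-- **ASW** (medium, CRITICAL, from FIW; real analysis). Let `k = 2K+1 ≤ n/2 + L/8`, `L = sqrt(n log n)`. `m + 1 ≥ n/4`, `m' + 1 ≥ n/4 - 1/4...`: `y = K + 1 - m ≤ L/16 + 2`, `y' ≤ L/16 + 2 sqrt n + 5`. `y'^2 ≤ 2 (L/16)^2 + 2 (2 sqrt n + 5)^2 ≤ n log n/128 + 16 n + ..`; so
`2 y²/(m+1) + 2 y'^2/(m'+1) ≤ 8.1/n · (2 · n log n/128 + ...) ≤ log n/7 + C` for large `n`, and `E ≥ e^(-C) n^(-1/7)`; `(a + 2) E ≥ (n/2) e^(-C) n^(-1/7) > 12 sqrt(n/2)` for large `n`. `4 y ≤ m + 1`, `4 y' ≤ m' + 1` for large `n` (`L = o(n)`). Any explicit or non-explicit `n0`. -/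
def ASW_stmt : Prop := ∃ n0 : ℕ, ∀ n ≥ n0, ∀ K : ℕ, n ≤ 4 * K + 2 → ((2 * K + 1 : ℕ) : ℝ) ≤ n / 2 + Real.sqrt (n * Real.log n) / 8 → VV n (2 * K + 1) < WW n K

end Pool.Agent.helper72.UP
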