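import Pool.Agent.helper72.ODK.Spec

/-! # Project ODK, comparison with the other listed lower bound -/

set_option autoImplicit false

namespace Pool.Agent.helper72.UP

open Finset

/-- **MVE** (short-medium). `n = 2N`, `N ≤ 2K`. `K ≥ h := (N+1)/2`, so `1 + VV ≥ ∑_{i ≤ h} C(N,i)^2` (`(n+1)/2 = n/2 = N`). By the symmetry `i ↦ N - i`: `2 ∑_{i ≤ h} C(N,i)^2 ≥ ∑_{i ≤ N} C(N,i)^2 + 2 = C(2N,N) + 2` (`N` even: the middle term is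
counted twice, `C(N,N/2)^2 ≥ 4`; `N` odd: the two middle terms are counted twice). `Nat.sum_range_choose_sq` or Vandermonde. And `C(2N-1,2K) ≤ C(2N-1,N-1) = C(2N,N)/2` (`Nat.choose_le_middle`, `Nat.choose_symm_half`-type). -/
def MVE_stmt : Prop := ∀ N K : ℕ, 2 ≤ N → N ≤ 2 * K → 2 * K + 1 ≤ 2 * N → (2 * N - 1).choose (2 * K) ≤ VV (2 * N) (2 * K + 1)

/-- **MVO** (medium). `n = 2N+1`, `N ≤ 2K`, `h = (N+1)/2 ≤ K`. `C(N+1,i) = C(N,i) + C(N,i-1)`: `1 + VV ≥ ∑_{0 ≤ i ≤ h} C(N,i)^2 + ∑_{1 ≤ i ≤ h} C(N,i) C(N,i-1)`. Symmetries `i ↦ N - i` in the first, `i ↦ N + 1 - i` in the second sum; `X = C(N,h)` (the maximum).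
`N` even: twice the right side is `≥ C(2N,N) + X^2 + C(2N,N-1)`; `N` odd: `≥ C(2N,N) + 2 X^2 + C(2N,N-1)`. `C(2N,N-1) (N+1) = C(2N,N) N`, and `C(2N,N) = ∑ C(N,i)^2 ≤ 2 + (N-1) X^2 ≤ (N+1)(X^2 - 2)` as `X ≥ N ≥ 2`, `2 X^2 ≥ 2 N + 4`.
So `1 + VV ≥ C(2N,N) + 1`, and `C(2N,2K) ≤ C(2N,N)`. -/
def MVO_stmt : Prop := ∀ N K : ℕ, 2 ≤ N → N ≤ 2 * K → 2 * K + 1 ≤ 2 * N + 1 → (2 * N).choose (2 * K) ≤ VV (2 * N + 1) (2 * K + 1)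

end Pool.Agent.helper72.UP
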